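import Mathlib
import Pool.Agent.Helper75.Defs
import Pool.Agent.Helper75.Basic
import Pool.Agent.Helper75.LacDefs
import Pool.Agent.Helper75.FourMain

set_option autoImplicit false

/-!
# Two prediscretifications of the profinite loop-group of type `(0,4)` with different plus-parts
-/

namespace Pool.Agent.Results.MP_07c73e_al.NotNormal

open Pool.Agent.Helper75.Defs Pool.Agent.Helper75.Basic Pool.Agent.Helper75.LacDefs

variable {g n : ℕ}

/-- A basis of the profinite loop-group `π = PiHat g n`: elements `x_i, y_i, l_i` satisfying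
`[x_1,y_1] ⋯ [x_g,y_g] l_1 ⋯ l_n = 1`, which generate `π` topologically, and such that, for some
unit `u` of the profinite integers and some permutation `σ`, every `l_i` is conjugate to the
`u`-th power of the standard loop number `σ i`. -/
structure Basis (g n : ℕ) where
  x : Fin g → PiHat g n
  y : Fin g → PiHat g n
  l : Fin n → PiHat g n
  rel : (List.ofFn fun i => x i * y i * (x i)⁻¹ * (y i)⁻¹).prod * (List.ofFn l).prod = 1
  dense : Dense (Subgroup.closure (Set.range x ∪ Set.range y ∪ Set.range l) : Set (PiHat g n))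
  lac : ∃ (u : Zhat) (σ : Equiv.Perm (Fin n)) (a : Fin n → PiHat g n), IsUnitZ u ∧
    ∀ i, l i = a i * ppow (loop (σ i)) u * (a i)⁻¹

/-- The abstract subgroup generated by a basis. -/
def Basis.disc (b : Basis g n) : Subgroup (PiHat g n) :=
  Subgroup.closure (Set.range b.x ∪ Set.range b.y ∪ Set.range b.l)

/-- A discretification: the abstract subgroup generated by some basis. -/
def IsDiscretification (D : Subgroup (PiHat g n)) : Prop := ∃ b : Basis g n, D = b.disc

/-- The stabiliser of `D` in `Aut_lac`. -/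
def Stab (D : Subgroup (PiHat g n)) : Set (AutLac g n) :=
  {φ | φ.toFun '' (D : Set (PiHat g n)) = D}

/-- The closure of the stabiliser of `D` in `Aut_lac`, for the profinite topology: the
automorphisms `φ` such that for every open normal subgroup `N` of `π` some `ψ` in the stabiliser
of `D` agrees with `φ` modulo `N`. -/
def SHat (D : Subgroup (PiHat g n)) : Set (AutLac g n) :=
  {φ | ∀ N : OpenNormalSubgroup (PiHat g n), ∃ ψ ∈ Stab D,
    ∀ a, φ.toFun a * (ψ.toFun a)⁻¹ ∈ N.toSubgroup}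

/-- The image of a subgroup under an automorphism. -/
def img (φ : AutLac g n) (D : Subgroup (PiHat g n)) : Subgroup (PiHat g n) :=
  D.map φ.toC.toMonoidHom

/-- The prediscretification of `D`: the orbit of `D` under the closure of its stabiliser. -/
def pre (D : Subgroup (PiHat g n)) : Set (Subgroup (PiHat g n)) :=
  {D' | ∃ φ ∈ SHat D, D' = img φ D}

/-- A prediscretification: the orbit of some discretification. -/
def IsPrediscretification (P : Set (Subgroup (PiHat g n))) : Prop :=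
  ∃ D, IsDiscretification D ∧ P = pre D

/-- The group attached to a prediscretification: the closure of the stabiliser of any of its
members (they all give the same group, see `SHat_eq_of_mem_pre`). -/
def SHatOf (P : Set (Subgroup (PiHat g n))) : Set (AutLac g n) := {φ | ∃ D ∈ P, φ ∈ SHat D}

/-- For `n ≥ 1`: the plus-part, i.e. the classes in `𝕋 = Aut_lac / Inn` of the elements of the
group attached to `P` on which the cyclotomic character is `1`. -/
def TPlusOf (P : Set (Subgroup (PiHat g n))) : Set (TT g n) :=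
  {t | ∃ φ ∈ SHatOf P, LacOne φ.toFun ∧ cls φ = t}

lemma mem_stab_iff {D : Subgroup (PiHat g n)} {φ : AutLac g n} :
    φ ∈ Stab D ↔ img φ D = D := by
  constructor
  · intro h
    apply SetLike.coe_injective
    exact h
  · intro h
    exact congrArg (fun S : Subgroup (PiHat g n) => (S : Set (PiHat g n))) h

lemma img_mul (φ ψ : AutLac g n) (D : Subgroup (PiHat g n)) : img (φ * ψ) D = img φ (img ψ D) := by
  ext a
  constructor
  · rintro ⟨b, hb, rfl⟩
    exact ⟨ψ.toFun b, ⟨b, hb, rfl⟩, rfl⟩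
  · rintro ⟨_, ⟨b, hb, rfl⟩, rfl⟩
    exact ⟨b, hb, rfl⟩

lemma img_one (D : Subgroup (PiHat g n)) : img 1 D = D := by
  ext a
  constructor
  · rintro ⟨b, hb, rfl⟩
    exact hb
  · intro ha
    exact ⟨a, ha, rfl⟩

lemma img_inv_img (φ : AutLac g n) (D : Subgroup (PiHat g n)) : img φ⁻¹ (img φ D) = D := by
  rw [← img_mul, inv_mul_cancel, img_one]

lemma img_img_inv (φ : AutLac g n) (D : Subgroup (PiHat g n)) : img φ (img φ⁻¹ D) = D := by
  rw [← img_mul, mul_inv_cancel, img_one]

/-- conjugating the stabiliser -/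
lemma conj_mem_stab {D : Subgroup (PiHat g n)} {φ ψ : AutLac g n} (h : ψ ∈ Stab D) :
    φ * ψ * φ⁻¹ ∈ Stab (img φ D) := by
  rw [mem_stab_iff] at h ⊢
  rw [img_mul, img_mul, img_inv_img, h]

/-- conjugating the closure of the stabiliser -/
lemma conj_mem_SHat {D : Subgroup (PiHat g n)} {φ θ : AutLac g n} (h : θ ∈ SHat D) :
    φ * θ * φ⁻¹ ∈ SHat (img φ D) := by
  intro N
  let N' : OpenNormalSubgroup (PiHat g n) :=
    { toSubgroup := N.toSubgroup.comap φ.toC.toMonoidHom
      isOpen' := N.isOpen'.preimage φ.continuous_toFun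
      isNormal' := Subgroup.Normal.comap N.isNormal' _ }
  obtain ⟨ψ, hψ, hψN⟩ := h N'
  refine ⟨φ * ψ * φ⁻¹, conj_mem_stab hψ, fun a => ?_⟩
  have h1 : φ.toC (θ.toFun (φ.invFun a) * (ψ.toFun (φ.invFun a))⁻¹) ∈ N.toSubgroup :=
    hψN (φ.invFun a)
  rw [_root_.map_mul, map_inv] at h1
  exact h1

lemma SHat_mul {D : Subgroup (PiHat g n)} {φ θ : AutLac g n} (h1 : φ ∈ SHat D) (h2 : θ ∈ SHat D) :
    φ * θ ∈ SHat D := by
  intro N
  obtain ⟨ψ, hψ, hψN⟩ := h1 N
  let N' : OpenNormalSubgroup (PiHat g n) :=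
    { toSubgroup := N.toSubgroup.comap φ.toC.toMonoidHom
      isOpen' := N.isOpen'.preimage φ.continuous_toFun
      isNormal' := Subgroup.Normal.comap N.isNormal' _ }
  obtain ⟨ψ', hψ', hψN'⟩ := h2 N'
  refine ⟨ψ * ψ', ?_, fun a => ?_⟩
  · rw [mem_stab_iff] at hψ hψ' ⊢
    rw [img_mul, hψ', hψ]
  · have h3 : φ.toC (θ.toFun a * (ψ'.toFun a)⁻¹) ∈ N.toSubgroup := hψN' a
    have h4 : φ.toC (ψ'.toFun a) * (ψ.toFun (ψ'.toFun a))⁻¹ ∈ N.toSubgroup := hψN _
    have h5 := mul_mem h3 h4
    rw [_root_.map_mul, map_inv] at h5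
    have h6 : φ.toC (θ.toFun a) * (φ.toC (ψ'.toFun a))⁻¹ * (φ.toC (ψ'.toFun a) *
      (ψ.toFun (ψ'.toFun a))⁻¹) = φ.toC (θ.toFun a) * (ψ.toFun (ψ'.toFun a))⁻¹ := by group
    rwa [h6] at h5

lemma SHat_inv {D : Subgroup (PiHat g n)} {φ : AutLac g n} (h : φ ∈ SHat D) : φ⁻¹ ∈ SHat D := by
  intro N
  let N' : OpenNormalSubgroup (PiHat g n) :=
    { toSubgroup := N.toSubgroup.comap φ.toCinv.toMonoidHom
      isOpen' := N.isOpen'.preimage φ.continuous_invFun
      isNormal' := Subgroup.Normal.comap N.isNormal' _ }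
  obtain ⟨ψ, hψ, hψN⟩ := h N'
  refine ⟨ψ⁻¹, ?_, fun a => ?_⟩
  · rw [mem_stab_iff] at hψ ⊢
    conv_lhs => rw [← hψ]
    exact img_inv_img ψ D
  · show φ.invFun a * (ψ.invFun a)⁻¹ ∈ N.toSubgroup
    have h2 : φ.toCinv (φ.toFun (ψ.invFun a) * (ψ.toFun (ψ.invFun a))⁻¹) ∈ N.toSubgroup := hψN _
    rw [_root_.map_mul, map_inv, ψ.right_inv] at h2
    have h7 : φ.toCinv (φ.toFun (ψ.invFun a)) = ψ.invFun a := φ.left_inv _
    rw [h7] at h2
    have h3 := inv_mem h2
    have h4 : (ψ.invFun a * (φ.toCinv a)⁻¹)⁻¹ = φ.toCinv a * (ψ.invFun a)⁻¹ := by group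
    rwa [h4] at h3

lemma stab_subset_SHat {D : Subgroup (PiHat g n)} {φ : AutLac g n} (h : φ ∈ Stab D) :
    φ ∈ SHat D := fun N => ⟨φ, h, fun a => by rw [mul_inv_cancel]; exact one_mem _⟩

lemma mem_pre_self (D : Subgroup (PiHat g n)) : D ∈ pre D :=
  ⟨1, stab_subset_SHat (by rw [mem_stab_iff, img_one]), (img_one D).symm⟩

/-- All members of a prediscretification have the same closed stabiliser. -/
theorem SHat_eq_of_mem_pre {D D' : Subgroup (PiHat g n)} (h : D' ∈ pre D) : SHat D' = SHat D := by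
  obtain ⟨φ, hφ, rfl⟩ := h
  ext θ
  constructor
  · intro hθ
    have h1 := conj_mem_SHat (φ := φ⁻¹) hθ
    rw [img_inv_img, inv_inv] at h1
    have h2 := SHat_mul (SHat_mul hφ h1) (SHat_inv hφ)
    have h3 : φ * (φ⁻¹ * θ * φ) * φ⁻¹ = θ := by group
    rwa [h3] at h2
  · intro hθ
    have h1 := SHat_mul (SHat_mul (SHat_inv hφ) hθ) hφ
    have h2 := conj_mem_SHat (φ := φ) h1
    have h3 : φ * (φ⁻¹ * θ * φ) * φ⁻¹ = θ := by group
    rwa [h3] at h2

lemma SHatOf_pre (D : Subgroup (PiHat g n)) : SHatOf (pre D) = SHat D := by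
  ext φ
  constructor
  · rintro ⟨D', hD', hφ⟩
    rwa [SHat_eq_of_mem_pre hD'] at hφ
  · intro h
    exact ⟨D, mem_pre_self D, h⟩

/-! ### the standard discretification -/

/-- the standard generators -/
def stdGen (s : (Fin g ⊕ Fin g) ⊕ Fin n) : SurfGroup g n :=
  PresentedGroup.of (rels := {relator g n}) s

lemma map_relator {Q : Type} [Group Q] (f : SurfGroup g n →* Q) :
    (List.ofFn fun i : Fin g => f (stdGen (Sum.inl (Sum.inl i))) *
      f (stdGen (Sum.inl (Sum.inr i))) * (f (stdGen (Sum.inl (Sum.inl i))))⁻¹ *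
      (f (stdGen (Sum.inl (Sum.inr i))))⁻¹).prod *
    (List.ofFn fun j : Fin n => f (stdGen (Sum.inr j))).prod = 1 := by
  have h1 : PresentedGroup.mk {relator g n} (relator g n) = 1 :=
    PresentedGroup.one_of_mem (Set.mem_singleton _)
  let F : FreeGroup ((Fin g ⊕ Fin g) ⊕ Fin n) →* Q := f.comp (PresentedGroup.mk {relator g n})
  have h2 : F (relator g n) = 1 := by
    show f (PresentedGroup.mk {relator g n} (relator g n)) = 1
    rw [h1]
    exact map_one f
  unfold relator at h2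
  rw [map_mul, map_list_prod, map_list_prod, List.map_ofFn, List.map_ofFn] at h2
  have h3 : (⇑F ∘ fun i : Fin g =>
      FreeGroup.of (Sum.inl (Sum.inl i)) * FreeGroup.of (Sum.inl (Sum.inr i)) *
      (FreeGroup.of (Sum.inl (Sum.inl i)))⁻¹ * (FreeGroup.of (Sum.inl (Sum.inr i)))⁻¹) =
      fun i : Fin g => f (stdGen (Sum.inl (Sum.inl i))) *
      f (stdGen (Sum.inl (Sum.inr i))) * (f (stdGen (Sum.inl (Sum.inl i))))⁻¹ *
      (f (stdGen (Sum.inl (Sum.inr i))))⁻¹ := by
    funext i
    simp only [Function.comp_apply, map_mul, map_inv]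
    rfl
  rw [h3] at h2
  exact h2

lemma range_eta_eq : (eta (SurfGroup g n)).range =
    Subgroup.closure (Set.range (fun i : Fin g => eta (SurfGroup g n) (stdGen (Sum.inl (Sum.inl i))))
      ∪ Set.range (fun i : Fin g => eta (SurfGroup g n) (stdGen (Sum.inl (Sum.inr i))))
      ∪ Set.range (fun i : Fin n => (loop i : PiHat g n))) := by
  have h1 : Subgroup.closure (Set.range (stdGen (g := g) (n := n))) = ⊤ :=
    PresentedGroup.closure_range_of _
  rw [MonoidHom.range_eq_map, ← h1, MonoidHom.map_closure]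
  congr 1
  ext a
  constructor
  · rintro ⟨_, ⟨s, rfl⟩, rfl⟩
    rcases s with (i | i) | j
    · exact Or.inl (Or.inl ⟨i, rfl⟩)
    · exact Or.inl (Or.inr ⟨i, rfl⟩)
    · exact Or.inr ⟨j, rfl⟩
  · rintro ((⟨i, rfl⟩ | ⟨i, rfl⟩) | ⟨j, rfl⟩)
    · exact ⟨_, ⟨_, rfl⟩, rfl⟩
    · exact ⟨_, ⟨_, rfl⟩, rfl⟩
    · exact ⟨_, ⟨Sum.inr j, rfl⟩, rfl⟩

/-- the standard basis -/
def stdBasis (g n : ℕ) : Basis g n where
  x := fun i => eta (SurfGroup g n) (stdGen (Sum.inl (Sum.inl i)))
  y := fun i => eta (SurfGroup g n) (stdGen (Sum.inl (Sum.inr i)))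
  l := fun i => loop i
  rel := map_relator (eta (SurfGroup g n))
  dense := by
    rw [← range_eta_eq]
    exact denseRange_eta _
  lac := ⟨1, 1, fun _ => 1, isUnitZ_unit 1, fun i => by
    rw [Pool.Agent.Helper75.Basic.ppow_one, Equiv.Perm.one_apply, one_mul, inv_one, mul_one]⟩

lemma stdBasis_disc : (stdBasis g n).disc = (eta (SurfGroup g n)).range := range_eta_eq.symm

/-- the image of a basis under an element of `Aut_lac` -/
def imgBasis (φ : AutLac g n) (b : Basis g n) : Basis g n where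
  x := fun i => φ.toFun (b.x i)
  y := fun i => φ.toFun (b.y i)
  l := fun i => φ.toFun (b.l i)
  rel := by
    have h := congrArg φ.toC b.rel
    rw [_root_.map_mul, map_list_prod, map_list_prod, List.map_ofFn, List.map_ofFn, map_one] at h
    have h3 : (⇑φ.toC ∘ fun i => b.x i * b.y i * (b.x i)⁻¹ * (b.y i)⁻¹) =
        fun i => φ.toFun (b.x i) * φ.toFun (b.y i) * (φ.toFun (b.x i))⁻¹ *
          (φ.toFun (b.y i))⁻¹ := by
      funext i
      simp only [Function.comp_apply, _root_.map_mul, map_inv]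
      rfl
    rw [h3] at h
    exact h
  dense := by
    have hd := b.dense
    have h1 : (Subgroup.closure (Set.range (fun i => φ.toFun (b.x i)) ∪
        Set.range (fun i => φ.toFun (b.y i)) ∪ Set.range (fun i => φ.toFun (b.l i))) :
        Set (PiHat g n)) = φ.toFun '' (Subgroup.closure (Set.range b.x ∪ Set.range b.y ∪
          Set.range b.l) : Set (PiHat g n)) := by
      have h2 := MonoidHom.map_closure φ.toC.toMonoidHom
        (Set.range b.x ∪ Set.range b.y ∪ Set.range b.l)
      rw [Set.image_union, Set.image_union, ← Set.range_comp, ← Set.range_comp,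
        ← Set.range_comp] at h2
      exact (congrArg (fun S : Subgroup (PiHat g n) => (S : Set (PiHat g n))) h2).symm
    rw [h1]
    intro a
    have h2 : φ.toFun '' closure (Subgroup.closure (Set.range b.x ∪ Set.range b.y ∪
        Set.range b.l) : Set (PiHat g n)) ⊆ _ := image_closure_subset_closure_image
          φ.continuous_toFun
    rw [hd.closure_eq] at h2
    exact h2 ⟨φ.invFun a, trivial, φ.right_inv a⟩
  lac := by
    obtain ⟨u, σ, a, hu, ha⟩ := b.lac
    obtain ⟨v, hv, τ, c, hc⟩ := φ.lac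
    obtain ⟨u', rfl⟩ := exists_unit u hu
    obtain ⟨v', rfl⟩ := exists_unit v hv
    refine ⟨((v' * u' : Zhatˣ) : Zhat), τ * σ, fun i => φ.toFun (a i) * c (σ i),
      isUnitZ_unit _, fun i => ?_⟩
    have h1 : φ.toFun (b.l i) = φ.toC (b.l i) := rfl
    have h2 : φ.toC (loop (σ i)) = c (σ i) * ppow (loop (τ (σ i))) v' * (c (σ i))⁻¹ := hc (σ i)
    rw [h1, ha i, _root_.map_mul, _root_.map_mul, map_inv, map_ppow, h2, ppow_conj, Units.val_mul,
      ← Pool.Agent.Helper75.Basic.ppow_mul]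
    show _ = φ.toC (a i) * c (σ i) * ppow (loop ((τ * σ) i)) _ * (φ.toC (a i) * c (σ i))⁻¹
    rw [Equiv.Perm.mul_apply]
    group

lemma imgBasis_disc (φ : AutLac g n) (b : Basis g n) : (imgBasis φ b).disc = img φ b.disc := by
  have h2 := MonoidHom.map_closure φ.toC.toMonoidHom
    (Set.range b.x ∪ Set.range b.y ∪ Set.range b.l)
  rw [Set.image_union, Set.image_union, ← Set.range_comp, ← Set.range_comp,
    ← Set.range_comp] at h2
  exact h2.symm

lemma SHat_std : SHat (eta (SurfGroup g n)).range = {φ : AutLac g n | InClosure φ} := by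
  ext φ
  rfl

lemma TPlusOf_std : TPlusOf (pre (eta (SurfGroup g n)).range) = (TPlus g n : Set (TT g n)) := by
  ext t
  show (∃ φ ∈ SHatOf (pre (eta (SurfGroup g n)).range), LacOne φ.toFun ∧ cls φ = t) ↔
    ∃ φ : AutLac g n, InClosure φ ∧ LacOne φ.toFun ∧ cls φ = t
  rw [SHatOf_pre]
  rfl

/-- Sanity check: the profinite power is a genuine limit. -/
theorem ppow_is_limit (a : PiHat g n) (l : Zhat) : Filter.Tendsto
    (fun k : ℕ => a ^ res l ⟨k.factorial, k.factorial_pos⟩) Filter.atTop (nhds (ppow a l)) :=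
  tendsto_ppow a l

/-- For the type `(0,4)` there are two prediscretifications with different plus-parts; the
plus-part of the prediscretification of the standard discretification `π_{0,4}` is a subgroup
of `𝕋` which is not normal. -/
theorem result :
    (∃ P₀ P₁ : Set (Subgroup (PiHat 0 4)), IsPrediscretification P₀ ∧ IsPrediscretification P₁ ∧
      TPlusOf P₀ ≠ TPlusOf P₁) ∧
    ∃ (P : Set (Subgroup (PiHat 0 4))) (H : Subgroup (TT 0 4)), IsPrediscretification P ∧
      (eta (SurfGroup 0 4)).range ∈ P ∧ (H : Set (TT 0 4)) = TPlusOf P ∧ ¬ H.Normal := by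
  have hP : IsPrediscretification (pre (eta (SurfGroup 0 4)).range) :=
    ⟨_, ⟨stdBasis 0 4, stdBasis_disc.symm⟩, rfl⟩
  refine ⟨?_, pre (eta (SurfGroup 0 4)).range, TPlus 0 4, hP, mem_pre_self _, TPlusOf_std.symm,
    Pool.Agent.Helper75.FourMain.not_normal⟩
  by_contra hcon
  push Not at hcon
  apply Pool.Agent.Helper75.FourMain.not_normal
  constructor
  intro t ht s
  obtain ⟨φ, rfl⟩ := QuotientGroup.mk_surjective s
  have h1 : TPlusOf (pre (eta (SurfGroup 0 4)).range) =
      TPlusOf (pre (img φ (eta (SurfGroup 0 4)).range)) :=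
    hcon _ _ hP ⟨_, ⟨imgBasis φ (stdBasis 0 4), by rw [imgBasis_disc, stdBasis_disc]⟩, rfl⟩
  have h2 : cls φ * t * (cls φ)⁻¹ ∈
      TPlusOf (pre (img φ (eta (SurfGroup 0 4)).range)) := by
    obtain ⟨ψ, hψ, hψ1, rfl⟩ := ht
    refine ⟨φ * ψ * φ⁻¹, ?_, ?_, rfl⟩
    · rw [SHatOf_pre]
      exact conj_mem_SHat hψ
    · obtain ⟨v, hv, hv'⟩ := φ.lac
      obtain ⟨v', rfl⟩ := exists_unit v hv
      have h3 : LacWith ((v'⁻¹ : Zhatˣ) : Zhat) φ.invFun :=
        LacWith.inverse φ.toCinv φ.left_inv hv'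
      have h4 := LacWith.comp φ.toC hv' (LacWith.comp ψ.toC hψ1.with h3)
      rw [one_mul, Units.mul_inv] at h4
      exact h4.one
  rw [← h1, TPlusOf_std] at h2
  exact h2

end Pool.Agent.Results.MP_07c73e_al.NotNormal
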